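import Mathlib

namespace Pool.Agent.H776R2.FORad

section basic

variable {G : Type*} [Group G]

/-- the conjugate `x⁻¹ g x` -/
def cj (g x : G) : G := x⁻¹ * g * x

theorem cj_one (g : G) : cj g 1 = g := by simp [cj]

theorem cj_mul_right (g x y : G) : cj g (x * y) = cj (cj g x) y := by
  simp only [cj]; group

theorem cj_mul_left (g h x : G) : cj (g * h) x = cj g x * cj h x := by
  simp only [cj]; group

theorem cj_inv_left (g x : G) : cj g⁻¹ x = (cj g x)⁻¹ := by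
  simp only [cj]; group

theorem cj_of_commute {g x : G} (h : Commute x g) : cj g x = g := by
  simp only [cj]
  rw [mul_assoc, ← h.eq]; group

/-- the subgroup generated by the conjugates of `g` under elements of `N` -/
def NC (N : Subgroup G) (g : G) : Subgroup G := Subgroup.closure {z | ∃ x ∈ N, z = cj g x}

theorem cj_mem_NC {N : Subgroup G} {g x : G} (hx : x ∈ N) : cj g x ∈ NC N g :=
  Subgroup.subset_closure ⟨x, hx, rfl⟩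

theorem self_mem_NC (N : Subgroup G) (g : G) : g ∈ NC N g := by
  have := cj_mem_NC (g := g) (N.one_mem)
  rwa [cj_one] at this

theorem NC_le {N H : Subgroup G} {g : G} (hg : g ∈ H)
    (hH : ∀ x ∈ N, ∀ z ∈ H, cj z x ∈ H) : NC N g ≤ H := by
  rw [NC, Subgroup.closure_le]
  rintro z ⟨x, hx, rfl⟩
  exact hH x hx g hg

theorem cj_mem {H : Subgroup G} {g x : G} (hg : g ∈ H) (hx : x ∈ H) : cj g x ∈ H :=
  H.mul_mem (H.mul_mem (H.inv_mem hx) hg) hx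

theorem cj_mem_normal {H : Subgroup G} [hH : H.Normal] {g : G} (hg : g ∈ H) (x : G) :
    cj g x ∈ H := by
  have := hH.conj_mem g hg x⁻¹
  rwa [inv_inv] at this

theorem NC_le_self {N : Subgroup G} {g : G} (hg : g ∈ N) : NC N g ≤ N :=
  NC_le hg (fun _ hx _ hz => cj_mem hz hx)

theorem cj_mem_of_mem_NC {N : Subgroup G} {g x z : G} (hx : x ∈ N) (hz : z ∈ NC N g) :
    cj z x ∈ NC N g := by
  refine Subgroup.closure_induction (p := fun z _ => cj z x ∈ NC N g) ?_ ?_ ?_ ?_ hz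
  · rintro z ⟨y, hy, rfl⟩
    rw [← cj_mul_right]
    exact cj_mem_NC (N.mul_mem hy hx)
  · have : cj (1 : G) x = 1 := by simp [cj]
    rw [this]; exact one_mem _
  · intro a b _ _ ha hb
    rw [cj_mul_left]; exact mul_mem ha hb
  · intro a _ ha
    rw [cj_inv_left]; exact inv_mem ha

/-- an element normalising `N` and commuting with `g` normalises `NC N g` -/
theorem cj_mem_NC_of_norm {N : Subgroup G} {g t z : G} (ht : ∀ x ∈ N, cj x t ∈ N)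
    (hg : Commute t g) (hz : z ∈ NC N g) : cj z t ∈ NC N g := by
  refine Subgroup.closure_induction (p := fun z _ => cj z t ∈ NC N g) ?_ ?_ ?_ ?_ hz
  · rintro z ⟨y, hy, rfl⟩
    have h1 : cj (cj g y) t = cj (cj g t) (cj y t) := by
      simp only [cj]; group
    rw [h1, cj_of_commute hg]
    exact cj_mem_NC (ht y hy)
  · have : cj (1 : G) t = 1 := by simp [cj]
    rw [this]; exact one_mem _
  · intro a b _ _ ha hb
    rw [cj_mul_left]; exact mul_mem ha hb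
  · intro a _ ha
    rw [cj_inv_left]; exact inv_mem ha

/-- `y` acts by conjugation on `F` as an element of `F` -/
def Fc (F : Subgroup G) (y : G) : Prop := ∃ u ∈ F, ∀ z ∈ F, Commute (u⁻¹ * y) z

theorem Fc.mul {F : Subgroup G} {y₁ y₂ : G} (h₁ : Fc F y₁) (h₂ : Fc F y₂) : Fc F (y₁ * y₂) := by
  obtain ⟨u₁, hu₁, h₁⟩ := h₁
  obtain ⟨u₂, hu₂, h₂⟩ := h₂
  refine ⟨u₁ * u₂, mul_mem hu₁ hu₂, fun z hz => ?_⟩
  have e : (u₁ * u₂)⁻¹ * (y₁ * y₂) = (u₁⁻¹ * y₁) * (u₂⁻¹ * y₂) := by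
    have h := (h₁ u₂⁻¹ (inv_mem hu₂)).eq
    calc (u₁ * u₂)⁻¹ * (y₁ * y₂) = (u₂⁻¹ * (u₁⁻¹ * y₁)) * y₂ := by group
      _ = ((u₁⁻¹ * y₁) * u₂⁻¹) * y₂ := by rw [← h]
      _ = _ := by group
  rw [e]
  exact (h₁ z hz).mul_left (h₂ z hz)

theorem Fc.of_mem {F : Subgroup G} {y : G} (h : y ∈ F) : Fc F y :=
  ⟨y, h, fun z _ => by rw [inv_mul_cancel]; exact Commute.one_left z⟩

theorem Fc.of_comm {F : Subgroup G} {y : G} (h : ∀ z ∈ F, Commute y z) : Fc F y :=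
  ⟨1, one_mem _, fun z hz => by simpa using h z hz⟩

structure IsFac (M F : Subgroup G) : Prop where
  fac : ∀ y ∈ M, Fc F y
  cen : ∀ z ∈ F, (∀ w ∈ F, Commute z w) → z = 1

theorem IsFac.comm {M F : Subgroup G} (hF : IsFac M F) {u t c : G} (hu : u ∈ F)
    (ht : ∀ z ∈ F, Commute t z) (hc : c ∈ M)
    (h : u * t * c * (u * t)⁻¹ * c⁻¹ ∈ F) : Commute t c := by
  obtain ⟨w, hw, hc'⟩ := hF.fac c hc
  obtain ⟨c', hc'def⟩ : ∃ c', c' = w⁻¹ * c := ⟨_, rfl⟩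
  rw [← hc'def] at hc'
  have hcw : c = w * c' := by simp [hc'def]
  obtain ⟨κ, hκ⟩ : ∃ κ, κ = t * c' * t⁻¹ * c'⁻¹ := ⟨_, rfl⟩
  have hκc : ∀ z ∈ F, Commute κ z := fun z hz => by
    rw [hκ]
    exact (((ht z hz).mul_left (hc' z hz)).mul_left (ht z hz).inv_left).mul_left
      (hc' z hz).inv_left
  have e₁ : t * w = w * t := (ht w hw).eq
  have e₂ : u⁻¹ * c'⁻¹ = c'⁻¹ * u⁻¹ := ((hc' u hu).symm.inv_inv).eq
  have hm : u⁻¹ * w⁻¹ ∈ F := mul_mem (inv_mem hu) (inv_mem hw)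
  have key : u * t * c * (u * t)⁻¹ * c⁻¹ = (u * w * u⁻¹ * w⁻¹) * κ := by
    calc u * t * c * (u * t)⁻¹ * c⁻¹
        = u * (t * w) * c' * t⁻¹ * (u⁻¹ * c'⁻¹) * w⁻¹ := by rw [hcw]; group
      _ = u * (w * t) * c' * t⁻¹ * (c'⁻¹ * u⁻¹) * w⁻¹ := by rw [e₁, e₂]
      _ = u * w * (κ * (u⁻¹ * w⁻¹)) := by rw [hκ]; group
      _ = u * w * ((u⁻¹ * w⁻¹) * κ) := by rw [(hκc _ hm).eq]
      _ = _ := by group
  have hκF : κ ∈ F := by
    have h2 : κ = (u * w * u⁻¹ * w⁻¹)⁻¹ * (u * t * c * (u * t)⁻¹ * c⁻¹) := by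
      rw [key]; group
    rw [h2]
    exact mul_mem (inv_mem (mul_mem (mul_mem (mul_mem hu hw) (inv_mem hu)) (inv_mem hw))) h
  have h1 : κ = 1 := hF.cen κ hκF hκc
  have h3 : Commute t c' := by
    have h4 : t * c' * t⁻¹ * c'⁻¹ = 1 := by rw [← hκ, h1]
    have h5 : t * c' = c' * t := by
      have h6 := congrArg (fun z => z * c' * t) h4
      simpa [mul_assoc] using h6
    exact h5
  rw [hcw]
  exact (ht w hw).mul_right h3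

theorem IsFac.comm' {M F : Subgroup G} (hF : IsFac M F) {u y c : G} (hu : u ∈ F)
    (ht : ∀ z ∈ F, Commute (u⁻¹ * y) z) (hc : c ∈ M)
    (h : y * c * y⁻¹ * c⁻¹ ∈ F) : Commute (u⁻¹ * y) c := by
  refine hF.comm hu ht hc ?_
  have : u * (u⁻¹ * y) = y := by group
  rw [this]; exact h

theorem IsFac.comm'' {M F : Subgroup G} (hF : IsFac M F) {u y c : G} (hu : u ∈ F)
    (ht : ∀ z ∈ F, Commute (u⁻¹ * y) z) (hc : c ∈ M)
    (h : Commute y c) : Commute (u⁻¹ * y) c := by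
  refine hF.comm' hu ht hc ?_
  have : y * c * y⁻¹ * c⁻¹ = 1 := by rw [h.eq]; group
  rw [this]; exact one_mem _

structure GA (N : Subgroup G) (g : G) : Prop where
  two : ∀ z ∈ NC N g, ∃ x ∈ N, ∃ y ∈ N, z = cj g x * cj g y
  fac : ∀ y ∈ N, Fc (NC N g) y
  tup : ∃ c ∈ NC N g, ∃ d ∈ NC N g, ∀ z ∈ NC N g, Commute z c → Commute z d → z = 1

/-- all axioms relative to the subgroup `N` -/
def GI (N : Subgroup G) : Prop := ∀ g ∈ N, GA N g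

theorem GA.isFac {N : Subgroup G} {g : G} (h : GA N g) : IsFac N (NC N g) where
  fac := h.fac
  cen := by
    intro z hz hw
    obtain ⟨c, hc, d, hd, hcd⟩ := h.tup
    exact hcd z hz (hw c hc) (hw d hd)

theorem cj_eq {A : Subgroup G} {g u y : G} (hg : g ∈ A) (hu : u ∈ A)
    (h : ∀ z ∈ A, Commute (u⁻¹ * y) z) : cj g y = cj g u := by
  have h1 : cj g y = cj (cj g u) (u⁻¹ * y) := by
    rw [← cj_mul_right]; congr 1; group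
  rw [h1, cj_of_commute (h _ (cj_mem hg hu))]

theorem NC_eq_of {M L : Subgroup G} {g : G} (hML : M ≤ L)
    (h : ∀ y ∈ L, ∃ u ∈ M, cj g y = cj g u) : NC L g = NC M g := by
  apply le_antisymm
  · rw [NC, Subgroup.closure_le]
    rintro z ⟨x, hx, rfl⟩
    obtain ⟨u, hu, e⟩ := h x hx
    rw [e]; exact cj_mem_NC hu
  · rw [NC, Subgroup.closure_le]
    rintro z ⟨x, hx, rfl⟩
    exact cj_mem_NC (hML hx)

theorem GA.up {M L : Subgroup G} {g : G} (hML : M ≤ L) (hg : g ∈ M) (h : GA M g)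
    (hf : ∀ y ∈ L, Fc (NC M g) y) : NC L g = NC M g ∧ GA L g := by
  have e : NC L g = NC M g := by
    refine NC_eq_of hML (fun y hy => ?_)
    obtain ⟨u, hu, hu'⟩ := hf y hy
    exact ⟨u, NC_le_self hg hu, cj_eq (self_mem_NC M g) hu hu'⟩
  refine ⟨e, ⟨?_, ?_, ?_⟩⟩
  · intro z hz
    rw [e] at hz
    obtain ⟨x, hx, y, hy, h'⟩ := h.two z hz
    exact ⟨x, hML hx, y, hML hy, h'⟩
  · rw [e]; exact hf
  · rw [e]; exact h.tup

theorem GA.down {M L : Subgroup G} {g : G} (hML : M ≤ L) (h : GA L g)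
    (hle : NC L g ≤ M) : NC L g = NC M g ∧ GA M g := by
  have h0 : ∀ y ∈ L, ∃ u ∈ M, cj g y = cj g u := by
    intro y hy
    obtain ⟨u, hu, hu'⟩ := h.fac y hy
    exact ⟨u, hle hu, cj_eq (self_mem_NC L g) hu hu'⟩
  have e : NC L g = NC M g := NC_eq_of hML h0
  refine ⟨e, ⟨?_, ?_, ?_⟩⟩
  · intro z hz
    rw [← e] at hz
    obtain ⟨x, hx, y, hy, h'⟩ := h.two z hz
    obtain ⟨x', hx', ex⟩ := h0 x hx
    obtain ⟨y', hy', ey⟩ := h0 y hy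
    exact ⟨x', hx', y', hy', by rw [h', ex, ey]⟩
  · rw [← e]; exact fun y hy => h.fac y (hML hy)
  · rw [← e]; exact h.tup

theorem GA.two' {N : Subgroup G} {g : G} (h : GA N g) :
    ∀ z ∈ NC N g, ∃ x ∈ NC N g, ∃ y ∈ NC N g, z = cj g x * cj g y := by
  intro z hz
  obtain ⟨x, hx, y, hy, h'⟩ := h.two z hz
  obtain ⟨x', hx', ex⟩ := h.fac x hx
  obtain ⟨y', hy', ey⟩ := h.fac y hy
  exact ⟨x', hx', y', hy', by
    rw [h', cj_eq (self_mem_NC N g) hx' ex, cj_eq (self_mem_NC N g) hy' ey]⟩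

/-- Lemma Z -/
theorem mem_of_two {M : Subgroup G} {f x y : G} (h : f = cj f x * cj f y)
    (hx : f⁻¹ * x⁻¹ * f * x ∈ M) (hy : f⁻¹ * y⁻¹ * f * y ∈ M) : f ∈ M := by
  have e : f = (f⁻¹ * x⁻¹ * f * x)⁻¹ * (f⁻¹ * y⁻¹ * f * y)⁻¹ := by
    have h1 : 1 = (f⁻¹ * x⁻¹ * f * x) * f * (f⁻¹ * y⁻¹ * f * y) := by
      have h2 := congrArg (fun z => f⁻¹ * z) h
      simp only [cj] at h2
      calc (1 : G) = f⁻¹ * f := by group
        _ = f⁻¹ * (x⁻¹ * f * x * (y⁻¹ * f * y)) := h2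
        _ = _ := by group
    have h3 := congrArg (fun z => (f⁻¹ * x⁻¹ * f * x)⁻¹ * z * (f⁻¹ * y⁻¹ * f * y)⁻¹) h1
    calc f = (f⁻¹ * x⁻¹ * f * x)⁻¹ * (f⁻¹ * x⁻¹ * f * x * f * (f⁻¹ * y⁻¹ * f * y)) *
          (f⁻¹ * y⁻¹ * f * y)⁻¹ := by group
      _ = (f⁻¹ * x⁻¹ * f * x)⁻¹ * 1 * (f⁻¹ * y⁻¹ * f * y)⁻¹ := h3.symm
      _ = _ := by group
  rw [e]
  exact mul_mem (inv_mem hx) (inv_mem hy)

theorem GI.down {M N : Subgroup G} (h : GI M) (hNM : N ≤ M)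
    (hn : ∀ x ∈ M, ∀ z ∈ N, cj z x ∈ N) : GI N := fun g hg =>
  ((h g (hNM hg)).down hNM (NC_le hg hn)).2

end basic

section join

variable {G : Type*} [Group G] {N₁ N₂ : Subgroup G} [hn₁ : N₁.Normal] [hn₂ : N₂.Normal]

omit hn₁ in
theorem fc_sup {F : Subgroup G} (h₁ : ∀ y ∈ N₁, Fc F y) (h₂ : ∀ y ∈ N₂, Fc F y) :
    ∀ y ∈ N₁ ⊔ N₂, Fc F y := by
  intro y hy
  have h : y ∈ (↑(N₁ ⊔ N₂) : Set G) := hy
  rw [Subgroup.mul_normal] at h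
  obtain ⟨a, ha, b, hb, rfl⟩ := Set.mem_mul.mp h
  exact (h₁ a ha).mul (h₂ b hb)

theorem stepA (h₁ : GI N₁) (h₂ : GI N₂) {d : G} (hd₁ : d ∈ N₁) (hd₂ : d ∈ N₂) :
    NC N₁ d ≤ N₁ ⊓ N₂ ∧ IsFac (N₁ ⊔ N₂) (NC N₁ d) := by
  have hD : ∀ L : Subgroup G, NC L d ≤ N₁ ⊓ N₂ := fun L => NC_le ⟨hd₁, hd₂⟩ (fun x _ z hz =>
    ⟨cj_mem_normal hz.1 x, cj_mem_normal hz.2 x⟩)
  have e₁ := ((h₁ d hd₁).down (inf_le_left : N₁ ⊓ N₂ ≤ N₁) (hD N₁)).1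
  have e₂ := ((h₂ d hd₂).down (inf_le_right : N₁ ⊓ N₂ ≤ N₂) (hD N₂)).1
  have e : NC N₁ d = NC N₂ d := e₁.trans e₂.symm
  refine ⟨hD N₁, ⟨fc_sup (h₁ d hd₁).fac (by rw [e]; exact (h₂ d hd₂).fac), ?_⟩⟩
  exact (h₁ d hd₁).isFac.cen

theorem peel (h₁ : GI N₁) (h₂ : GI N₂) {x c : G} (hx : x ∈ N₂) (hc : c ∈ N₁) :
    ∃ u ∈ N₁ ⊓ N₂, Commute (u⁻¹ * x) c ∧
      ∀ c' ∈ N₁ ⊔ N₂, Commute x c' → Commute (u⁻¹ * x) c' := by
  obtain ⟨e, he⟩ : ∃ e, e = x * c * x⁻¹ * c⁻¹ := ⟨_, rfl⟩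
  have he₁ : e ∈ N₁ := by
    rw [he]; exact mul_mem (hn₁.conj_mem c hc x) (inv_mem hc)
  have he₂ : e ∈ N₂ := by
    rw [he]
    have : x * c * x⁻¹ * c⁻¹ = x * (c * x⁻¹ * c⁻¹) := by group
    rw [this]
    exact mul_mem hx (hn₂.conj_mem _ (inv_mem hx) c)
  obtain ⟨hle, hF⟩ := stepA h₁ h₂ he₁ he₂
  obtain ⟨u, hu, hu'⟩ := hF.fac x (Subgroup.mem_sup_right hx)
  refine ⟨u, hle hu, ?_, ?_⟩
  · refine hF.comm' hu hu' (Subgroup.mem_sup_left hc) ?_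
    rw [← he]; exact self_mem_NC _ _
  · intro c' hc' hcom
    exact hF.comm'' hu hu' hc' hcom

theorem stepB (h₁ : GI N₁) (h₂ : GI N₂) {g x : G} (hg : g ∈ N₁) (hx : x ∈ N₂) :
    Fc (NC N₁ g) x := by
  have hA := NC_le_self hg
  obtain ⟨c, hc, d, hd, hcd⟩ := (h₁ g hg).tup
  have hgM : g ∈ N₁ ⊔ N₂ := Subgroup.mem_sup_left hg
  have hcM : c ∈ N₁ ⊔ N₂ := Subgroup.mem_sup_left (hA hc)
  have hdM : d ∈ N₁ ⊔ N₂ := Subgroup.mem_sup_left (hA hd)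
  obtain ⟨u₁, hu₁, a₁, b₁⟩ := peel h₁ h₂ hx hg
  have hx₁ : u₁⁻¹ * x ∈ N₂ := mul_mem (inv_mem hu₁.2) hx
  obtain ⟨u₂, hu₂, a₂, b₂⟩ := peel h₁ h₂ hx₁ (hA hc)
  have hx₂ : u₂⁻¹ * (u₁⁻¹ * x) ∈ N₂ := mul_mem (inv_mem hu₂.2) hx₁
  obtain ⟨u₃, hu₃, a₃, b₃⟩ := peel h₁ h₂ hx₂ (hA hd)
  obtain ⟨t, ht⟩ : ∃ t, t = u₃⁻¹ * (u₂⁻¹ * (u₁⁻¹ * x)) := ⟨_, rfl⟩
  have htd : Commute t d := by rw [ht]; exact a₃
  have htc : Commute t c := by rw [ht]; exact b₃ c hcM a₂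
  have htg : Commute t g := by rw [ht]; exact b₃ g hgM (b₂ g hgM a₁)
  have htN : t ∈ N₂ := by rw [ht]; exact mul_mem (inv_mem hu₃.2) hx₂
  -- `t` centralises `A`
  have hcent : ∀ a ∈ NC N₁ g, Commute t a := by
    intro a ha
    have haN : a ∈ N₁ := hA ha
    obtain ⟨e, he⟩ : ∃ e, e = t * a * t⁻¹ * a⁻¹ := ⟨_, rfl⟩
    have htinv : Commute t⁻¹ g := htg.inv_left
    have heA : e ∈ NC N₁ g := by
      have h3 : cj a t⁻¹ ∈ NC N₁ g :=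
        cj_mem_NC_of_norm (fun x hx => cj_mem_normal hx _) htinv ha
      have h4 : e = cj a t⁻¹ * a⁻¹ := by rw [he, cj, inv_inv]
      rw [h4]; exact mul_mem h3 (inv_mem ha)
    have he₁ : e ∈ N₁ := hA heA
    have he₂ : e ∈ N₂ := by
      rw [he]
      have : t * a * t⁻¹ * a⁻¹ = t * (a * t⁻¹ * a⁻¹) := by group
      rw [this]
      exact mul_mem htN (hn₂.conj_mem _ (inv_mem htN) a)
    obtain ⟨hle, hF⟩ := stepA h₁ h₂ he₁ he₂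
    have hEA : NC N₁ e ≤ NC N₁ g := NC_le heA (fun x hx z hz => cj_mem_of_mem_NC hx hz)
    obtain ⟨v, hv, hv'⟩ := hF.fac t (Subgroup.mem_sup_right htN)
    have k1 : Commute (v⁻¹ * t) a := hF.comm' hv hv' (Subgroup.mem_sup_left haN)
      (by rw [← he]; exact self_mem_NC _ _)
    have k2 : Commute (v⁻¹ * t) c := hF.comm'' hv hv' hcM htc
    have k3 : Commute (v⁻¹ * t) d := hF.comm'' hv hv' hdM htd
    have hvt : v = t * (v⁻¹ * t)⁻¹ := by group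
    have hv1 : v = 1 := by
      refine hcd v (hEA hv) ?_ ?_
      · rw [hvt]; exact htc.mul_left k2.inv_left
      · rw [hvt]; exact htd.mul_left k3.inv_left
    rw [hv1] at k1
    simpa using k1
  have hxe : x = u₁ * (u₂ * (u₃ * t)) := by rw [ht]; group
  rw [hxe]
  exact ((h₁ g hg).fac u₁ hu₁.1).mul (((h₁ g hg).fac u₂ hu₂.1).mul
    (((h₁ g hg).fac u₃ hu₃.1).mul (Fc.of_comm hcent)))

theorem stepC (h₁ : GI N₁) (h₂ : GI N₂) {g : G} (hg : g ∈ N₁) :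
    NC (N₁ ⊔ N₂) g = NC N₁ g ∧ GA (N₁ ⊔ N₂) g :=
  (h₁ g hg).up le_sup_left hg (fc_sup (h₁ g hg).fac (fun _ hx => stepB h₁ h₂ hg hx))

/-- two commuting factors -/
theorem GA_mul {M : Subgroup G} {a b : G} (ha : a ∈ M) (hb : b ∈ M)
    (hA : GA M a) (hB : GA M b) (hc : ∀ x ∈ NC M a, ∀ y ∈ NC M b, Commute x y) :
    GA M (a * b) := by
  have hAM := NC_le_self ha
  have hBM := NC_le_self hb
  have haA := self_mem_NC M a
  have hbB := self_mem_NC M b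
  -- products lie in the two-conjugate set
  have htwo : ∀ z₁ ∈ NC M a, ∀ z₂ ∈ NC M b, ∃ x ∈ M, ∃ y ∈ M,
      z₁ * z₂ = cj (a * b) x * cj (a * b) y := by
    intro z₁ hz₁ z₂ hz₂
    obtain ⟨x₁, hx₁, y₁, hy₁, e₁⟩ := hA.two' z₁ hz₁
    obtain ⟨x₂, hx₂, y₂, hy₂, e₂⟩ := hB.two' z₂ hz₂
    have key : ∀ x ∈ NC M a, ∀ y ∈ NC M b, cj (a * b) (x * y) = cj a x * cj b y := by
      intro x hx y hy
      have k1 : cj a (x * y) = cj a x := by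
        rw [cj_mul_right]
        exact cj_of_commute (hc _ (cj_mem haA hx) y hy).symm
      have k2 : cj b (x * y) = cj b y := by
        rw [cj_mul_right, cj_of_commute (hc x hx b hbB)]
      rw [cj_mul_left, k1, k2]
    refine ⟨x₁ * x₂, mul_mem (hAM hx₁) (hBM hx₂), y₁ * y₂, mul_mem (hAM hy₁) (hBM hy₂), ?_⟩
    rw [key _ hx₁ _ hx₂, key _ hy₁ _ hy₂, e₁, e₂]
    have k := (hc _ (cj_mem haA hy₁) _ (cj_mem hbB hx₂)).eq
    calc cj a x₁ * cj a y₁ * (cj b x₂ * cj b y₂)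
        = cj a x₁ * (cj a y₁ * cj b x₂) * cj b y₂ := by group
      _ = cj a x₁ * (cj b x₂ * cj a y₁) * cj b y₂ := by rw [k]
      _ = _ := by group
  have hset : ∀ z, z ∈ NC M (a * b) ↔ ∃ z₁ ∈ NC M a, ∃ z₂ ∈ NC M b, z = z₁ * z₂ := by
    intro z
    constructor
    · intro hz
      refine Subgroup.closure_induction (p := fun z _ => ∃ z₁ ∈ NC M a, ∃ z₂ ∈ NC M b,
        z = z₁ * z₂) ?_ ?_ ?_ ?_ hz
      · rintro z ⟨x, hx, rfl⟩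
        exact ⟨cj a x, cj_mem_NC hx, cj b x, cj_mem_NC hx, cj_mul_left _ _ _⟩
      · exact ⟨1, one_mem _, 1, one_mem _, by simp⟩
      · rintro p q _ _ ⟨p₁, hp₁, p₂, hp₂, rfl⟩ ⟨q₁, hq₁, q₂, hq₂, rfl⟩
        refine ⟨p₁ * q₁, mul_mem hp₁ hq₁, p₂ * q₂, mul_mem hp₂ hq₂, ?_⟩
        have k := (hc q₁ hq₁ p₂ hp₂).eq
        calc p₁ * p₂ * (q₁ * q₂) = p₁ * (p₂ * q₁) * q₂ := by group
          _ = p₁ * (q₁ * p₂) * q₂ := by rw [k]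
          _ = _ := by group
      · rintro p _ ⟨p₁, hp₁, p₂, hp₂, rfl⟩
        refine ⟨p₁⁻¹, inv_mem hp₁, p₂⁻¹, inv_mem hp₂, ?_⟩
        rw [mul_inv_rev]
        exact ((hc p₁ hp₁ p₂ hp₂).inv_inv).eq.symm
    · rintro ⟨z₁, hz₁, z₂, hz₂, rfl⟩
      obtain ⟨x, hx, y, hy, e⟩ := htwo z₁ hz₁ z₂ hz₂
      rw [e]
      exact mul_mem (cj_mem_NC hx) (cj_mem_NC hy)
  have hl : ∀ z₁ ∈ NC M a, z₁ ∈ NC M (a * b) := fun z₁ h =>
    (hset z₁).2 ⟨z₁, h, 1, one_mem _, by simp⟩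
  have hr : ∀ z₂ ∈ NC M b, z₂ ∈ NC M (a * b) := fun z₂ h =>
    (hset z₂).2 ⟨1, one_mem _, z₂, h, by simp⟩
  refine ⟨?_, ?_, ?_⟩
  · intro z hz
    obtain ⟨z₁, hz₁, z₂, hz₂, rfl⟩ := (hset z).1 hz
    exact htwo z₁ hz₁ z₂ hz₂
  · intro x hx
    obtain ⟨u₁, hu₁, h₁⟩ := hA.fac x hx
    obtain ⟨u₂, hu₂, h₂⟩ := hB.fac x hx
    refine ⟨u₁ * u₂, mul_mem (hl _ hu₁) (hr _ hu₂), ?_⟩
    intro z hz
    obtain ⟨z₁, hz₁, z₂, hz₂, rfl⟩ := (hset z).1 hz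
    have e1 : (u₁ * u₂)⁻¹ * x = u₂⁻¹ * (u₁⁻¹ * x) := by group
    have e2 : (u₁ * u₂)⁻¹ * x = u₁⁻¹ * (u₂⁻¹ * x) := by
      rw [(hc u₁ hu₁ u₂ hu₂).eq]; group
    refine Commute.mul_right ?_ ?_
    · rw [e1]
      exact ((hc z₁ hz₁ u₂ hu₂).symm.inv_left).mul_left (h₁ z₁ hz₁)
    · rw [e2]
      exact ((hc u₁ hu₁ z₂ hz₂).inv_left).mul_left (h₂ z₂ hz₂)
  · obtain ⟨c₁, hc₁, d₁, hd₁, t₁⟩ := hA.tup
    obtain ⟨c₂, hc₂, d₂, hd₂, t₂⟩ := hB.tup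
    refine ⟨c₁ * c₂, mul_mem (hl _ hc₁) (hr _ hc₂), d₁ * d₂, mul_mem (hl _ hd₁) (hr _ hd₂), ?_⟩
    intro z hz hzc hzd
    obtain ⟨z₁, hz₁, z₂, hz₂, rfl⟩ := (hset z).1 hz
    have split : ∀ p ∈ NC M a, ∀ q ∈ NC M b, Commute (z₁ * z₂) (p * q) →
        Commute z₁ p ∧ Commute z₂ q := by
      intro p hp q hq hcom
      -- `[z₁,p] = [z₂,q]⁻¹`
      have k1 : z₂ * p = p * z₂ := (hc p hp z₂ hz₂).eq.symm
      have k2 : q * z₁ = z₁ * q := (hc z₁ hz₁ q hq).eq.symm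
      have h1 : (z₁ * p) * (z₂ * q) = (p * z₁) * (q * z₂) := by
        calc (z₁ * p) * (z₂ * q) = z₁ * (p * z₂) * q := by group
          _ = z₁ * (z₂ * p) * q := by rw [k1]
          _ = (z₁ * z₂) * (p * q) := by group
          _ = (p * q) * (z₁ * z₂) := hcom.eq
          _ = p * (q * z₁) * z₂ := by group
          _ = p * (z₁ * q) * z₂ := by rw [k2]
          _ = _ := by group
      have h2 : (p * z₁)⁻¹ * (z₁ * p) = (q * z₂) * (z₂ * q)⁻¹ := by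
        have h3 := congrArg (fun w => (p * z₁)⁻¹ * w * (z₂ * q)⁻¹) h1
        calc (p * z₁)⁻¹ * (z₁ * p) = (p * z₁)⁻¹ * (z₁ * p * (z₂ * q)) * (z₂ * q)⁻¹ := by group
          _ = (p * z₁)⁻¹ * (p * z₁ * (q * z₂)) * (z₂ * q)⁻¹ := h3
          _ = _ := by group
      have h4 : (p * z₁)⁻¹ * (z₁ * p) ∈ NC M a :=
        mul_mem (inv_mem (mul_mem hp hz₁)) (mul_mem hz₁ hp)
      have h5 : (p * z₁)⁻¹ * (z₁ * p) ∈ NC M b := by
        rw [h2]; exact mul_mem (mul_mem hq hz₂) (inv_mem (mul_mem hz₂ hq))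
      have h6 : (p * z₁)⁻¹ * (z₁ * p) = 1 :=
        hA.isFac.cen _ h4 (fun w hw => (hc w hw _ h5).symm)
      have h7 : Commute z₁ p := by
        have := inv_mul_eq_one.mp h6
        exact this.symm
      have h8 : Commute z₂ q := by
        rw [h6] at h2
        have h9 : q * z₂ = z₂ * q := mul_inv_eq_one.mp h2.symm
        exact h9.symm
      exact ⟨h7, h8⟩
    obtain ⟨a1, b1⟩ := split c₁ hc₁ c₂ hc₂ hzc
    obtain ⟨a2, b2⟩ := split d₁ hd₁ d₂ hd₂ hzd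
    rw [t₁ z₁ hz₁ a1 a2, t₂ z₂ hz₂ b1 b2, one_mul]

theorem GI_sup (h₁ : GI N₁) (h₂ : GI N₂) : GI (N₁ ⊔ N₂) := by
  intro g hg
  have h : g ∈ (↑(N₁ ⊔ N₂) : Set G) := hg
  rw [Subgroup.mul_normal] at h
  obtain ⟨n₁, hn₁', n₂, hn₂', hg'⟩ := Set.mem_mul.mp h
  have hn₁' : n₁ ∈ N₁ := hn₁'
  have hn₂' : n₂ ∈ N₂ := hn₂'
  have hAN : NC N₁ n₁ ≤ N₁ := NC_le_self hn₁'
  obtain ⟨eA, hA⟩ := stepC h₁ h₂ hn₁'
  obtain ⟨b, hb, hb'⟩ := stepB h₁ h₂ hn₁' hn₂'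
  -- `b ∈ N₂`
  have hbN : b ∈ N₂ := by
    have hbN₁ : b ∈ N₁ := hAN hb
    obtain ⟨x, hx, y, hy, e⟩ := (h₁ b hbN₁).two' b (self_mem_NC _ _)
    have hle : NC N₁ b ≤ NC N₁ n₁ := NC_le hb (fun x hx z hz => cj_mem_of_mem_NC hx hz)
    have key : ∀ y ∈ NC N₁ n₁, b⁻¹ * y⁻¹ * b * y ∈ N₂ := by
      intro y hy
      have hκ : b⁻¹ * y⁻¹ * b * y ∈ NC N₁ n₁ :=
        mul_mem (mul_mem (mul_mem (inv_mem hb) (inv_mem hy)) hb) hy
      have k1 := (hb' y hy).eq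
      have k2 := (hb' _ hκ).eq
      have e2 : b⁻¹ * y⁻¹ * b * y = n₂⁻¹ * y⁻¹ * n₂ * y := by
        obtain ⟨t, ht⟩ : ∃ t, t = b⁻¹ * n₂ := ⟨_, rfl⟩
        have hn : n₂ = b * t := by rw [ht]; group
        rw [← ht] at k1 k2
        have : n₂⁻¹ * y⁻¹ * n₂ * y = t⁻¹ * ((b⁻¹ * y⁻¹ * b * y) * t) := by
          calc n₂⁻¹ * y⁻¹ * n₂ * y = t⁻¹ * b⁻¹ * y⁻¹ * b * (t * y) := by rw [hn]; group
            _ = t⁻¹ * b⁻¹ * y⁻¹ * b * (y * t) := by rw [k1]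
            _ = _ := by group
        rw [this, ← k2]; group
      rw [e2]
      have : n₂⁻¹ * y⁻¹ * n₂ * y = n₂⁻¹ * (y⁻¹ * n₂ * y⁻¹⁻¹) := by group
      rw [this]
      exact mul_mem (inv_mem hn₂') (hn₂.conj_mem _ hn₂' y⁻¹)
    exact mem_of_two e (key x (hle hx)) (key y (hle hy))
  obtain ⟨b', hb'def⟩ : ∃ b', b' = b⁻¹ * n₂ := ⟨_, rfl⟩
  rw [← hb'def] at hb'
  have hb'N : b' ∈ N₂ := by rw [hb'def]; exact mul_mem (inv_mem hbN) hn₂'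
  have haA : n₁ * b ∈ NC N₁ n₁ := mul_mem (self_mem_NC _ _) hb
  have haN : n₁ * b ∈ N₁ := hAN haA
  obtain ⟨e₁, g₁⟩ := stepC h₁ h₂ haN
  have hsym : N₂ ⊔ N₁ = N₁ ⊔ N₂ := sup_comm _ _
  obtain ⟨e₂, g₂⟩ := stepC h₂ h₁ hb'N
  rw [hsym] at e₂ g₂
  have hgab : g = (n₁ * b) * b' := by rw [← hg', hb'def]; group
  have hA1 : NC (N₁ ⊔ N₂) (n₁ * b) ≤ NC (N₁ ⊔ N₂) n₁ :=
    NC_le (by rw [eA]; exact haA) (fun x hx z hz => cj_mem_of_mem_NC hx hz)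
  rw [hgab]
  refine GA_mul (Subgroup.mem_sup_left haN) (Subgroup.mem_sup_right hb'N) g₁ g₂ ?_
  intro x hx y hy
  have hx' : x ∈ NC (N₁ ⊔ N₂) n₁ := hA1 hx
  have hcen : NC (N₁ ⊔ N₂) b' ≤ Subgroup.centralizer (NC (N₁ ⊔ N₂) n₁ : Set G) := by
    refine NC_le ?_ ?_
    · rw [Subgroup.mem_centralizer_iff]
      intro z hz
      have hz' : z ∈ NC N₁ n₁ := by rw [← eA]; exact hz
      exact (hb' z hz').eq.symm
    · intro m hm z hz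
      rw [Subgroup.mem_centralizer_iff] at hz ⊢
      intro w hw
      have h1 : cj w m⁻¹ ∈ NC (N₁ ⊔ N₂) n₁ := cj_mem_of_mem_NC (inv_mem hm) hw
      have h2 := hz _ h1
      simp only [cj, inv_inv] at h2 ⊢
      have h3 := congrArg (fun r => m⁻¹ * r * m) h2
      calc w * (m⁻¹ * z * m) = m⁻¹ * (m * w * m⁻¹ * z) * m := by group
        _ = m⁻¹ * (z * (m * w * m⁻¹)) * m := h3
        _ = _ := by group
  have := Subgroup.mem_centralizer_iff.mp (hcen hy) x hx'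
  exact this

end join

end Pool.Agent.H776R2.FORad
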