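import Pool.Agent.H776R2.FORad.Basic

namespace Pool.Agent.H776R2.FORad

section maps

variable {G H : Type*} [Group G] [Group H]

theorem map_cj (f : G →* H) (g x : G) : f (cj g x) = cj (f g) (f x) := by
  simp [cj]

theorem NC_map (f : G →* H) (M : Subgroup G) (g : G) :
    NC (M.map f) (f g) = (NC M g).map f := by
  rw [NC, NC, MonoidHom.map_closure]
  congr 1
  ext z
  constructor
  · rintro ⟨x, ⟨y, hy, rfl⟩, rfl⟩
    exact ⟨cj g y, ⟨y, hy, rfl⟩, map_cj f g y⟩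
  · rintro ⟨w, ⟨y, hy, rfl⟩, rfl⟩
    exact ⟨f y, ⟨y, hy, rfl⟩, map_cj f g y⟩

theorem GI_map_iff {f : G →* H} (hf : Function.Injective f) (M : Subgroup G) :
    GI (M.map f) ↔ GI M := by
  have hcom : ∀ a b : G, Commute (f a) (f b) ↔ Commute a b := by
    intro a b
    constructor
    · intro h
      apply hf
      simpa using h.eq
    · intro h
      exact h.map f
  constructor
  · intro h g hg
    have k := h (f g) (Subgroup.mem_map_of_mem f hg)
    have e := NC_map f M g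
    refine ⟨?_, ?_, ?_⟩
    · intro z hz
      obtain ⟨x, hx, y, hy, e'⟩ := k.two (f z) (by rw [e]; exact Subgroup.mem_map_of_mem f hz)
      obtain ⟨x, hx, rfl⟩ := hx
      obtain ⟨y, hy, rfl⟩ := hy
      refine ⟨x, hx, y, hy, hf ?_⟩
      rw [e', map_mul, map_cj, map_cj]
    · intro y hy
      obtain ⟨u, hu, hu'⟩ := k.fac (f y) (Subgroup.mem_map_of_mem f hy)
      rw [e] at hu
      obtain ⟨u, hu, rfl⟩ := hu
      refine ⟨u, hu, fun z hz => ?_⟩
      have := hu' (f z) (by rw [e]; exact Subgroup.mem_map_of_mem f hz)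
      rw [← map_inv, ← map_mul] at this
      exact (hcom _ _).1 this
    · obtain ⟨c, hc, d, hd, t⟩ := k.tup
      rw [e] at hc hd
      obtain ⟨c, hc, rfl⟩ := hc
      obtain ⟨d, hd, rfl⟩ := hd
      refine ⟨c, hc, d, hd, fun z hz h1 h2 => ?_⟩
      have := t (f z) (by rw [e]; exact Subgroup.mem_map_of_mem f hz) ((hcom _ _).2 h1)
        ((hcom _ _).2 h2)
      exact hf (by rw [this, map_one])
  · rintro h _ ⟨g, hg, rfl⟩
    have k := h g hg
    have e := NC_map f M g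
    refine ⟨?_, ?_, ?_⟩
    · intro z hz
      rw [e] at hz
      obtain ⟨z, hz, rfl⟩ := hz
      obtain ⟨x, hx, y, hy, rfl⟩ := k.two z hz
      exact ⟨f x, Subgroup.mem_map_of_mem f hx, f y, Subgroup.mem_map_of_mem f hy, by
        rw [map_mul, map_cj, map_cj]⟩
    · rintro _ ⟨y, hy, rfl⟩
      obtain ⟨u, hu, hu'⟩ := k.fac y hy
      refine ⟨f u, by rw [e]; exact Subgroup.mem_map_of_mem f hu, fun z hz => ?_⟩
      rw [e] at hz
      obtain ⟨z, hz, rfl⟩ := hz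
      rw [← map_inv, ← map_mul]
      exact (hcom _ _).2 (hu' z hz)
    · obtain ⟨c, hc, d, hd, t⟩ := k.tup
      refine ⟨f c, by rw [e]; exact Subgroup.mem_map_of_mem f hc, f d,
        by rw [e]; exact Subgroup.mem_map_of_mem f hd, fun z hz h1 h2 => ?_⟩
      rw [e] at hz
      obtain ⟨z, hz, rfl⟩ := hz
      rw [t z hz ((hcom _ _).1 h1) ((hcom _ _).1 h2), map_one]

theorem GI_top_subgroup (N : Subgroup G) : GI (⊤ : Subgroup N) ↔ GI N := by
  have h := GI_map_iff (f := N.subtype) (Subtype.val_injective) (⊤ : Subgroup N)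
  rw [← MonoidHom.range_eq_map, Subgroup.range_subtype] at h
  exact h.symm

theorem GI_image {f : G →* H} (hf : Function.Surjective f) (h : GI (⊤ : Subgroup G)) :
    GI (⊤ : Subgroup H) := by
  have htop : (⊤ : Subgroup G).map f = ⊤ := by
    rw [← MonoidHom.range_eq_map]; exact MonoidHom.range_eq_top.mpr hf
  intro g' _
  obtain ⟨g, rfl⟩ := hf g'
  have k := h g (Subgroup.mem_top g)
  have e := NC_map f ⊤ g
  rw [htop] at e
  refine ⟨?_, ?_, ?_⟩
  · intro z hz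
    rw [e] at hz
    obtain ⟨z, hz, rfl⟩ := hz
    obtain ⟨x, hx, y, hy, rfl⟩ := k.two z hz
    exact ⟨f x, Subgroup.mem_top _, f y, Subgroup.mem_top _, by
      rw [map_mul, map_cj, map_cj]⟩
  · intro y' _
    obtain ⟨y, rfl⟩ := hf y'
    obtain ⟨u, hu, hu'⟩ := k.fac y (Subgroup.mem_top _)
    refine ⟨f u, by rw [e]; exact Subgroup.mem_map_of_mem f hu, fun z hz => ?_⟩
    rw [e] at hz
    obtain ⟨z, hz, rfl⟩ := hz
    rw [← map_inv, ← map_mul]
    exact (hu' z hz).map f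
  · obtain ⟨c, hc, d, hd, t⟩ := k.tup
    refine ⟨f c, by rw [e]; exact Subgroup.mem_map_of_mem f hc, f d,
      by rw [e]; exact Subgroup.mem_map_of_mem f hd, fun z hz h1 h2 => ?_⟩
    rw [e] at hz
    obtain ⟨z, hz, rfl⟩ := hz
    have hker : ∀ a b : G, Commute (f a) (f b) → f (a * b * a⁻¹ * b⁻¹) = 1 := by
      intro a b hab
      rw [map_mul, map_mul, map_mul, map_inv, map_inv, hab.eq]; group
    have hNC : ∀ a : G, f a = 1 → NC ⊤ a ≤ f.ker := fun a ha =>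
      NC_le (by rw [MonoidHom.mem_ker]; exact ha) (fun x _ z hz => by
        rw [MonoidHom.mem_ker] at hz ⊢
        rw [map_cj, hz]; simp [cj])
    have hNC2 : ∀ a : G, a ∈ NC ⊤ g → NC ⊤ a ≤ NC ⊤ g := fun a ha =>
      NC_le ha (fun x hx z hz => cj_mem_of_mem_NC hx hz)
    -- first peeling
    obtain ⟨e₁, he₁⟩ : ∃ e₁, e₁ = z * c * z⁻¹ * c⁻¹ := ⟨_, rfl⟩
    have hk₁ : f e₁ = 1 := by rw [he₁]; exact hker z c h1
    have hA₁ : e₁ ∈ NC ⊤ g := by
      rw [he₁]; exact mul_mem (mul_mem (mul_mem hz hc) (inv_mem hz)) (inv_mem hc)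
    have F₁ := (h e₁ (Subgroup.mem_top _)).isFac
    obtain ⟨u₁, hu₁, hu₁'⟩ := F₁.fac z (Subgroup.mem_top _)
    have c₁ : Commute (u₁⁻¹ * z) c := F₁.comm' hu₁ hu₁' (Subgroup.mem_top _) (by
      rw [← he₁]; exact self_mem_NC _ _)
    obtain ⟨z₁, hz₁⟩ : ∃ z₁, z₁ = u₁⁻¹ * z := ⟨_, rfl⟩
    rw [← hz₁] at c₁
    have hfu₁ : f u₁ = 1 := by
      have := hNC e₁ hk₁ hu₁
      rwa [MonoidHom.mem_ker] at this
    have hfz₁ : f z₁ = f z := by rw [hz₁, map_mul, map_inv, hfu₁]; simp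
    have hz₁A : z₁ ∈ NC ⊤ g := by
      rw [hz₁]; exact mul_mem (inv_mem (hNC2 e₁ hA₁ hu₁)) hz
    -- second peeling
    obtain ⟨e₂, he₂⟩ : ∃ e₂, e₂ = z₁ * d * z₁⁻¹ * d⁻¹ := ⟨_, rfl⟩
    have hk₂ : f e₂ = 1 := by rw [he₂]; exact hker z₁ d (by rw [hfz₁]; exact h2)
    have hA₂ : e₂ ∈ NC ⊤ g := by
      rw [he₂]; exact mul_mem (mul_mem (mul_mem hz₁A hd) (inv_mem hz₁A)) (inv_mem hd)
    have F₂ := (h e₂ (Subgroup.mem_top _)).isFac
    obtain ⟨u₂, hu₂, hu₂'⟩ := F₂.fac z₁ (Subgroup.mem_top _)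
    have c₂ : Commute (u₂⁻¹ * z₁) d := F₂.comm' hu₂ hu₂' (Subgroup.mem_top _) (by
      rw [← he₂]; exact self_mem_NC _ _)
    have c₃ : Commute (u₂⁻¹ * z₁) c := F₂.comm'' hu₂ hu₂' (Subgroup.mem_top _) c₁
    have hfu₂ : f u₂ = 1 := by
      have := hNC e₂ hk₂ hu₂
      rwa [MonoidHom.mem_ker] at this
    have hz₂A : u₂⁻¹ * z₁ ∈ NC ⊤ g := mul_mem (inv_mem (hNC2 e₂ hA₂ hu₂)) hz₁A
    have h3 := t _ hz₂A c₃ c₂
    have h4 : z₁ = u₂ := by
      have := inv_mul_eq_one.mp h3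
      exact this.symm
    rw [← hfz₁, h4, hfu₂]

theorem GI_bot : GI (⊥ : Subgroup G) := by
  intro g hg
  have hg1 : g = 1 := Subgroup.mem_bot.mp hg
  subst hg1
  have hle : NC ⊥ (1 : G) ≤ ⊥ := NC_le_self (Subgroup.mem_bot.mpr rfl)
  refine ⟨?_, ?_, ?_⟩
  · intro z hz
    have hz1 : z = 1 := Subgroup.mem_bot.mp (hle hz)
    exact ⟨1, one_mem _, 1, one_mem _, by rw [hz1]; simp [cj]⟩
  · intro y hy
    have hy1 : y = 1 := Subgroup.mem_bot.mp hy
    rw [hy1]; exact Fc.of_mem (one_mem _)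
  · exact ⟨1, one_mem _, 1, one_mem _, fun z hz _ _ => Subgroup.mem_bot.mp (hle hz)⟩

theorem GI_generated (h : sSup {N : Subgroup G | N.Normal ∧ GI N} = ⊤) :
    GI (⊤ : Subgroup G) := by
  have hdir : DirectedOn (· ≤ ·) {N : Subgroup G | N.Normal ∧ GI N} := by
    rintro N₁ ⟨n₁, g₁⟩ N₂ ⟨n₂, g₂⟩
    exact ⟨N₁ ⊔ N₂, ⟨Subgroup.sup_normal N₁ N₂, GI_sup g₁ g₂⟩, le_sup_left, le_sup_right⟩
  have hne : {N : Subgroup G | N.Normal ∧ GI N}.Nonempty :=
    ⟨⊥, Subgroup.normal_bot, GI_bot⟩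
  have hmem : ∀ g : G, ∃ N : Subgroup G, (N.Normal ∧ GI N) ∧ g ∈ N := by
    intro g
    have hg : g ∈ sSup {N : Subgroup G | N.Normal ∧ GI N} := by rw [h]; exact Subgroup.mem_top g
    obtain ⟨N, hN, hgN⟩ := (Subgroup.mem_sSup_of_directedOn hne hdir).mp hg
    exact ⟨N, hN, hgN⟩
  intro g _
  obtain ⟨M, ⟨hMn, hM⟩, hgM⟩ := hmem g
  refine ((hM g hgM).up le_top hgM ?_).2
  intro y _
  obtain ⟨N, ⟨hNn, hN⟩, hyN⟩ := hmem y
  obtain ⟨L, ⟨hLn, hL⟩, hML, hNL⟩ := hdir M ⟨hMn, hM⟩ N ⟨hNn, hN⟩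
  have h1 := (hL g (hML hgM)).down hML (NC_le hgM (fun x _ z hz => cj_mem_normal hz x))
  rw [← h1.1]
  exact (hL g (hML hgM)).fac y (hNL hyN)

end maps

/-- the product of two conjugates of `g` -/
def w2 {G : Type*} [Group G] (g x y : G) : G := cj g x * cj g y

/-- the axioms written out with quantifiers over the group only -/
structure Good (G : Type*) [Group G] : Prop where
  mul : ∀ g x₁ y₁ x₂ y₂ : G, ∃ x y, w2 g x₁ y₁ * w2 g x₂ y₂ = w2 g x y
  one : ∀ g : G, ∃ x y, 1 = w2 g x y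
  self : ∀ g : G, ∃ x y, g = w2 g x y
  fac : ∀ g t : G, ∃ p q, ∀ y, ((w2 g p q)⁻¹ * t) * cj g y = cj g y * ((w2 g p q)⁻¹ * t)
  tup : ∀ g : G, ∃ p q r s, ∀ x y, w2 g x y * w2 g p q = w2 g p q * w2 g x y →
    w2 g x y * w2 g r s = w2 g r s * w2 g x y → w2 g x y = 1

theorem good_iff (G : Type*) [Group G] : Good G ↔ GI (⊤ : Subgroup G) := by
  have hw : ∀ g x y : G, w2 g x y ∈ NC ⊤ g := fun g x y =>
    mul_mem (cj_mem_NC (Subgroup.mem_top _)) (cj_mem_NC (Subgroup.mem_top _))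
  constructor
  · intro h g _
    -- the two-conjugate set is a subgroup
    have htwo : ∀ z ∈ NC ⊤ g, ∃ x y, z = w2 g x y := by
      intro z hz
      refine Subgroup.closure_induction (p := fun z _ => ∃ x y, z = w2 g x y) ?_ ?_ ?_ ?_ hz
      · rintro z ⟨a, _, rfl⟩
        obtain ⟨x, y, e⟩ := h.self g
        refine ⟨x * a, y * a, ?_⟩
        conv_lhs => rw [e]
        simp only [w2]
        rw [cj_mul_left, cj_mul_right, cj_mul_right]
      · exact h.one g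
      · rintro a b _ _ ⟨x₁, y₁, rfl⟩ ⟨x₂, y₂, rfl⟩
        exact h.mul g x₁ y₁ x₂ y₂
      · rintro a _ ⟨x, y, rfl⟩
        obtain ⟨p, q, e⟩ := h.one g
        -- `g⁻¹ = cj g (q p⁻¹)`
        have hinv : g⁻¹ = cj g (q * p⁻¹) := by
          simp only [w2] at e
          have h1 : cj g q = (cj g p)⁻¹ := (inv_eq_of_mul_eq_one_right e.symm).symm
          rw [cj_mul_right, h1]
          simp only [cj]; group
        refine ⟨q * p⁻¹ * y, q * p⁻¹ * x, ?_⟩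
        simp only [w2]
        rw [cj_mul_right, ← hinv, cj_mul_right g (q * p⁻¹) x, ← hinv, mul_inv_rev,
          cj_inv_left, cj_inv_left]
    refine ⟨?_, ?_, ?_⟩
    · intro z hz
      obtain ⟨x, y, e⟩ := htwo z hz
      exact ⟨x, Subgroup.mem_top _, y, Subgroup.mem_top _, e⟩
    · intro t _
      obtain ⟨p, q, hpq⟩ := h.fac g t
      refine ⟨w2 g p q, hw g p q, fun z hz => ?_⟩
      obtain ⟨x, y, rfl⟩ := htwo z hz
      exact Commute.mul_right (hpq x) (hpq y)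
    · obtain ⟨p, q, r, s, t⟩ := h.tup g
      refine ⟨w2 g p q, hw g p q, w2 g r s, hw g r s, fun z hz h1 h2 => ?_⟩
      obtain ⟨x, y, rfl⟩ := htwo z hz
      exact t x y h1.eq h2.eq
  · intro h
    have htwo : ∀ g z : G, z ∈ NC ⊤ g → ∃ x y, z = w2 g x y := by
      intro g z hz
      obtain ⟨x, _, y, _, e⟩ := (h g (Subgroup.mem_top _)).two z hz
      exact ⟨x, y, e⟩
    refine ⟨?_, ?_, ?_, ?_, ?_⟩
    · intro g x₁ y₁ x₂ y₂
      exact htwo g _ (mul_mem (hw _ _ _) (hw _ _ _))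
    · intro g
      exact htwo g _ (one_mem _)
    · intro g
      exact htwo g _ (self_mem_NC _ _)
    · intro g t
      obtain ⟨u, hu, hu'⟩ := (h g (Subgroup.mem_top _)).fac t (Subgroup.mem_top _)
      obtain ⟨p, q, rfl⟩ := htwo g u hu
      exact ⟨p, q, fun y => (hu' _ (cj_mem_NC (Subgroup.mem_top _))).eq⟩
    · intro g
      obtain ⟨c, hc, d, hd, t⟩ := (h g (Subgroup.mem_top _)).tup
      obtain ⟨p, q, rfl⟩ := htwo g c hc
      obtain ⟨r, s, rfl⟩ := htwo g d hd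
      exact ⟨p, q, r, s, fun x y h1 h2 => t _ (hw _ _ _) h1 h2⟩

end Pool.Agent.H776R2.FORad
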