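import Mathlib

universe u

namespace Pool.Agent.H776R2.FORad

/-- A class of groups (in the universe `u`): a predicate on groups. -/
abbrev GroupClass : Type (u + 1) := ∀ (G : Type u) [Group G], Prop

/-- A radical class of groups: closed under isomorphism, homomorphic images and normal
subgroups, and containing every group generated by its normal subgroups in the class. -/
structure IsRadicalClass (K : GroupClass.{u}) : Prop where
  iso : ∀ (G H : Type u) [Group G] [Group H], (G ≃* H) → K G → K H
  image : ∀ (G H : Type u) [Group G] [Group H] (f : G →* H), Function.Surjective f → K G → K H
  normal : ∀ (G : Type u) [Group G] (N : Subgroup G), N.Normal → K G → K N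
  generated : ∀ (G : Type u) [Group G],
    sSup {N : Subgroup G | N.Normal ∧ K N} = ⊤ → K G

/-- function symbols of the language of groups -/
inductive GroupFunc : ℕ → Type
  | mul : GroupFunc 2
  | inv : GroupFunc 1
  | one : GroupFunc 0

/-- the language of groups `(·, ⁻¹, 1)` -/
def groupLang : FirstOrder.Language.{0, 0} where
  Functions := GroupFunc
  Relations := fun _ => Empty

/-- a group as a structure for the language of groups -/
@[reducible] def groupStr (G : Type u) [Group G] : groupLang.Structure G where
  funMap := fun {_} f => match f with
    | GroupFunc.mul => fun v => v 0 * v 1
    | GroupFunc.inv => fun v => (v 0)⁻¹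
    | GroupFunc.one => fun _ => 1
  RelMap := fun {_} r _ => Empty.elim r

/-- A class of groups is first-order definable if it is the class of all groups satisfying
some set of first-order sentences in the language of groups. -/
def IsFirstOrderDefinable (K : GroupClass.{u}) : Prop :=
  ∃ T : groupLang.Theory, ∀ (G : Type u) [Group G],
    K G ↔ @FirstOrder.Language.Theory.Model groupLang G (groupStr G) T

/-- A group is locally finite if each of its finitely generated subgroups is finite. -/
def IsLocallyFiniteGroup (G : Type u) [Group G] : Prop :=
  ∀ H : Subgroup G, H.FG → Finite H

end Pool.Agent.H776R2.FORad
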