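import Pool.Agent.H776R2.FORad.SL2
import Pool.Agent.H776R2.FORad.Defs

universe u

open Matrix

namespace Pool.Agent.H776R2.FORad

/-- the field of the example -/
abbrev KK : Type := AlgebraicClosure (RatFunc (ZMod 2))

instance charP_KK : CharP KK 2 := by
  have h : CharP (RatFunc (ZMod 2)) 2 :=
    charP_of_injective_ringHom (algebraMap (ZMod 2) (RatFunc (ZMod 2))).injective 2
  exact charP_of_injective_ringHom (algebraMap (RatFunc (ZMod 2)) KK).injective 2

/-- the transcendental element -/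
noncomputable def tt : KK := algebraMap (RatFunc (ZMod 2)) KK RatFunc.X

theorem tt_pow_ne {n : ℕ} (hn : 0 < n) : tt ^ n ≠ 1 := by
  intro h
  have h1 : (RatFunc.X : RatFunc (ZMod 2)) ^ n = 1 := by
    apply (algebraMap (RatFunc (ZMod 2)) KK).injective
    rw [map_pow, map_one]; exact h
  have h2 : (Polynomial.X : Polynomial (ZMod 2)) ^ n = 1 := by
    apply RatFunc.algebraMap_injective (ZMod 2)
    rw [map_pow, map_one, RatFunc.algebraMap_X]; exact h1
  have h3 := congrArg Polynomial.natDegree h2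
  rw [Polynomial.natDegree_X_pow, Polynomial.natDegree_one] at h3
  omega

theorem tt_ne : tt ≠ 0 := by
  unfold tt
  rw [Ne, map_eq_zero]
  exact RatFunc.X_ne_zero

noncomputable def dd : SpecialLinearGroup (Fin 2) KK :=
  sl tt 0 0 tt⁻¹ (by rw [mul_inv_cancel₀ tt_ne]; ring)

theorem dd_pow (n : ℕ) : (dd ^ n) 0 0 = tt ^ n ∧ (dd ^ n) 1 0 = 0 := by
  induction n with
  | zero => exact ⟨by rw [pow_zero, pow_zero]; exact one00, by rw [pow_zero]; exact one10⟩
  | succ n ih =>
    obtain ⟨h1, h2⟩ := ih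
    constructor
    · rw [pow_succ, mul00, h1, dd, sl00, sl10, pow_succ]; ring
    · rw [pow_succ, mul10, h2, dd, sl00, sl10]; ring

theorem not_locallyFinite :
    ¬ IsLocallyFiniteGroup (ULift.{u} (SpecialLinearGroup (Fin 2) KK)) := by
  intro h
  have hfg : (Subgroup.zpowers (ULift.up.{u} dd)).FG :=
    ⟨{ULift.up dd}, by rw [Subgroup.zpowers_eq_closure]; simp⟩
  have hfin := h _ hfg
  have h1 : IsOfFinOrder (ULift.up.{u} dd) := finite_zpowers.1 (Set.toFinite _)
  obtain ⟨n, hn, hn1⟩ := isOfFinOrder_iff_pow_eq_one.mp h1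
  have h2 : dd ^ n = 1 := congrArg ULift.down hn1
  have h3 := (dd_pow n).1
  rw [h2] at h3
  exact tt_pow_ne hn (by rw [← h3]; exact one00)

theorem example_mem : GI (⊤ : Subgroup (ULift.{u} (SpecialLinearGroup (Fin 2) KK))) :=
  GI_image (f := (MulEquiv.ulift.symm : SpecialLinearGroup (Fin 2) KK ≃* ULift.{u} _).toMonoidHom)
    (MulEquiv.ulift.symm).surjective GI_SL2

theorem not_mem : ¬ GI (⊤ : Subgroup (ULift.{u} (Multiplicative (ZMod 2)))) := by
  intro h
  have h1 := (h (ULift.up (Multiplicative.ofAdd 1)) (Subgroup.mem_top _)).two _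
    (self_mem_NC ⊤ _)
  obtain ⟨x, _, y, _, e⟩ := h1
  have e2 : ∀ a b : ULift.{u} (Multiplicative (ZMod 2)), cj a b = a := by
    intro a b
    exact cj_of_commute (Commute.all _ _)
  rw [e2, e2] at e
  have e3 : ULift.up.{u} (Multiplicative.ofAdd (1 : ZMod 2)) = 1 := by
    exact (left_eq_mul.mp e)
  have e4 : Multiplicative.ofAdd (1 : ZMod 2) = 1 := congrArg ULift.down e3
  exact absurd e4 (by decide)

end Pool.Agent.H776R2.FORad
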