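import Pool.Agent.H776R2.FORad.Class
import Pool.Agent.H776R2.FORad.Defs

universe u

namespace Pool.Agent.H776R2.FORad

open FirstOrder FirstOrder.Language

def fMul : groupLang.Functions 2 := GroupFunc.mul

def fInv : groupLang.Functions 1 := GroupFunc.inv

def fOne : groupLang.Constants := GroupFunc.one

section

variable {n : ℕ}

def tm (a b : groupLang.Term (Empty ⊕ Fin n)) : groupLang.Term (Empty ⊕ Fin n) :=
  Functions.apply₂ fMul a b

def ti (a : groupLang.Term (Empty ⊕ Fin n)) : groupLang.Term (Empty ⊕ Fin n) :=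
  Functions.apply₁ fInv a

def to1 : groupLang.Term (Empty ⊕ Fin n) :=
  Constants.term fOne

def tcj (g x : groupLang.Term (Empty ⊕ Fin n)) : groupLang.Term (Empty ⊕ Fin n) :=
  tm (tm (ti x) g) x

def tw (g x y : groupLang.Term (Empty ⊕ Fin n)) : groupLang.Term (Empty ⊕ Fin n) :=
  tm (tcj g x) (tcj g y)

end

section

variable {G : Type u} [Group G] {n : ℕ} (v : Empty ⊕ Fin n → G)

attribute [local instance] groupStr

theorem realize_tm (a b : groupLang.Term (Empty ⊕ Fin n)) :
    (tm a b).realize v = a.realize v * b.realize v := by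
  unfold tm
  rw [Term.realize_functions_apply₂]
  rfl

theorem realize_ti (a : groupLang.Term (Empty ⊕ Fin n)) :
    (ti a).realize v = (a.realize v)⁻¹ := by
  unfold ti
  rw [Term.realize_functions_apply₁]
  rfl

theorem realize_to1 : (to1 : groupLang.Term (Empty ⊕ Fin n)).realize v = 1 := by
  unfold to1
  rw [Term.realize_constants]
  rfl

theorem realize_tcj (a b : groupLang.Term (Empty ⊕ Fin n)) :
    (tcj a b).realize v = cj (a.realize v) (b.realize v) := by
  simp only [tcj, realize_tm, realize_ti, cj]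

theorem realize_tw (a b c : groupLang.Term (Empty ⊕ Fin n)) :
    (tw a b c).realize v = w2 (a.realize v) (b.realize v) (c.realize v) := by
  simp only [tw, realize_tm, realize_tcj, w2]

def sMul : groupLang.Sentence :=
  ∀' ∀' ∀' ∀' ∀' ∃' ∃' ((tm (tw (&0) (&1) (&2)) (tw (&0) (&3) (&4))) =' (tw (&0) (&5) (&6)))

def sOne : groupLang.Sentence :=
  ∀' ∃' ∃' (to1 =' (tw (&0) (&1) (&2)))

def sSelf : groupLang.Sentence :=
  ∀' ∃' ∃' ((&0) =' (tw (&0) (&1) (&2)))

def sFac : groupLang.Sentence :=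
  ∀' ∀' ∃' ∃' ∀' ((tm (tm (ti (tw (&0) (&2) (&3))) (&1)) (tcj (&0) (&4))) ='
    (tm (tcj (&0) (&4)) (tm (ti (tw (&0) (&2) (&3))) (&1))))

def sTup : groupLang.Sentence :=
  ∀' ∃' ∃' ∃' ∃' ∀' ∀' (((tm (tw (&0) (&5) (&6)) (tw (&0) (&1) (&2))) ='
      (tm (tw (&0) (&1) (&2)) (tw (&0) (&5) (&6)))) ⟹
    (((tm (tw (&0) (&5) (&6)) (tw (&0) (&3) (&4))) ='
      (tm (tw (&0) (&3) (&4)) (tw (&0) (&5) (&6)))) ⟹
    ((tw (&0) (&5) (&6)) =' to1)))

theorem realize_sMul : G ⊨ sMul ↔
    ∀ g x₁ y₁ x₂ y₂ : G, ∃ x y, w2 g x₁ y₁ * w2 g x₂ y₂ = w2 g x y := by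
  simp [sMul, Sentence.Realize, Formula.Realize, Fin.snoc, realize_tm, realize_tw]

theorem realize_sOne : G ⊨ sOne ↔ ∀ g : G, ∃ x y, 1 = w2 g x y := by
  simp [sOne, Sentence.Realize, Formula.Realize, Fin.snoc, realize_to1, realize_tw]

theorem realize_sSelf : G ⊨ sSelf ↔ ∀ g : G, ∃ x y, g = w2 g x y := by
  simp [sSelf, Sentence.Realize, Formula.Realize, Fin.snoc, realize_tw]

theorem realize_sFac : G ⊨ sFac ↔
    ∀ g t : G, ∃ p q, ∀ y, ((w2 g p q)⁻¹ * t) * cj g y = cj g y * ((w2 g p q)⁻¹ * t) := by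
  simp [sFac, Sentence.Realize, Formula.Realize, Fin.snoc, realize_tm, realize_tw, realize_ti,
    realize_tcj]

theorem realize_sTup : G ⊨ sTup ↔
    ∀ g : G, ∃ p q r s, ∀ x y, w2 g x y * w2 g p q = w2 g p q * w2 g x y →
    w2 g x y * w2 g r s = w2 g r s * w2 g x y → w2 g x y = 1 := by
  simp [sTup, Sentence.Realize, Formula.Realize, Fin.snoc, realize_tm, realize_tw, realize_to1]

/-- the axioms of the class -/
def theT : groupLang.Theory := {sMul, sOne, sSelf, sFac, sTup}

theorem model_theT (G : Type u) [Group G] : G ⊨ theT ↔ Good G := by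
  rw [Theory.model_iff]
  constructor
  · intro h
    exact ⟨realize_sMul.1 (h _ (by simp [theT])), realize_sOne.1 (h _ (by simp [theT])),
      realize_sSelf.1 (h _ (by simp [theT])), realize_sFac.1 (h _ (by simp [theT])),
      realize_sTup.1 (h _ (by simp [theT]))⟩
  · intro h φ hφ
    simp only [theT, Set.mem_insert_iff, Set.mem_singleton_iff] at hφ
    rcases hφ with rfl | rfl | rfl | rfl | rfl
    · exact realize_sMul.2 h.mul
    · exact realize_sOne.2 h.one
    · exact realize_sSelf.2 h.self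
    · exact realize_sFac.2 h.fac
    · exact realize_sTup.2 h.tup

end

end Pool.Agent.H776R2.FORad
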