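import Pool.Agent.H776R2.FORad.Class

open Matrix

namespace Pool.Agent.H776R2.FORad

section field

variable {K : Type*} [Field K]

/-- the matrix `(a b; c d)` of determinant one -/
def sl (a b c d : K) (h : a * d - b * c = 1) : SpecialLinearGroup (Fin 2) K :=
  ⟨!![a, b; c, d], by rw [Matrix.det_fin_two_of]; exact h⟩

theorem sl_ext {A B : SpecialLinearGroup (Fin 2) K} (h1 : A 0 0 = B 0 0)
    (h2 : A 0 1 = B 0 1) (h3 : A 1 0 = B 1 0) (h4 : A 1 1 = B 1 1) : A = B := by
  ext i j
  fin_cases i <;> fin_cases j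
  · exact h1
  · exact h2
  · exact h3
  · exact h4

theorem mul00 (A B : SpecialLinearGroup (Fin 2) K) :
    (A * B) 0 0 = A 0 0 * B 0 0 + A 0 1 * B 1 0 := by
  have h := Matrix.mul_apply (M := A.1) (N := B.1) (i := 0) (k := 0)
  rw [Fin.sum_univ_two] at h
  exact h

theorem mul01 (A B : SpecialLinearGroup (Fin 2) K) :
    (A * B) 0 1 = A 0 0 * B 0 1 + A 0 1 * B 1 1 := by
  have h := Matrix.mul_apply (M := A.1) (N := B.1) (i := 0) (k := 1)
  rw [Fin.sum_univ_two] at h
  exact h

theorem mul10 (A B : SpecialLinearGroup (Fin 2) K) :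
    (A * B) 1 0 = A 1 0 * B 0 0 + A 1 1 * B 1 0 := by
  have h := Matrix.mul_apply (M := A.1) (N := B.1) (i := 1) (k := 0)
  rw [Fin.sum_univ_two] at h
  exact h

theorem mul11 (A B : SpecialLinearGroup (Fin 2) K) :
    (A * B) 1 1 = A 1 0 * B 0 1 + A 1 1 * B 1 1 := by
  have h := Matrix.mul_apply (M := A.1) (N := B.1) (i := 1) (k := 1)
  rw [Fin.sum_univ_two] at h
  exact h

theorem one00 : (1 : SpecialLinearGroup (Fin 2) K) 0 0 = 1 := by simp
theorem one01 : (1 : SpecialLinearGroup (Fin 2) K) 0 1 = 0 := by simp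
theorem one10 : (1 : SpecialLinearGroup (Fin 2) K) 1 0 = 0 := by simp
theorem one11 : (1 : SpecialLinearGroup (Fin 2) K) 1 1 = 1 := by simp

theorem sldet (A : SpecialLinearGroup (Fin 2) K) :
    A 0 0 * A 1 1 - A 0 1 * A 1 0 = 1 := by
  have := A.2
  rwa [Matrix.det_fin_two] at this

theorem sl00 {a b c d : K} (h : a * d - b * c = 1) : (sl a b c d h) 0 0 = a := rfl
theorem sl01 {a b c d : K} (h : a * d - b * c = 1) : (sl a b c d h) 0 1 = b := rfl
theorem sl10 {a b c d : K} (h : a * d - b * c = 1) : (sl a b c d h) 1 0 = c := rfl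
theorem sl11 {a b c d : K} (h : a * d - b * c = 1) : (sl a b c d h) 1 1 = d := rfl

end field

section char2

variable {K : Type*} [Field K] [IsAlgClosed K] [CharP K 2]

theorem two0 (K : Type*) [Field K] [CharP K 2] : (2 : K) = 0 := CharTwo.two_eq_zero

omit [CharP K 2] in
theorem exists_quad (t : K) : ∃ β : K, β ^ 2 + t * β + 1 = 0 := by
  have hdeg : (Polynomial.C 1 * Polynomial.X ^ 2 + Polynomial.C t * Polynomial.X +
      Polynomial.C 1 : Polynomial K).degree = 2 := Polynomial.degree_quadratic one_ne_zero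
  obtain ⟨β, hβ⟩ := IsAlgClosed.exists_root (Polynomial.C 1 * Polynomial.X ^ 2 +
    Polynomial.C t * Polynomial.X + Polynomial.C 1 : Polynomial K) (by rw [hdeg]; decide)
  refine ⟨β, ?_⟩
  simpa [Polynomial.IsRoot] using hβ

/-- companion matrix of trace `t` (characteristic two) -/
def comp (t : K) : SpecialLinearGroup (Fin 2) K :=
  sl 0 1 1 t (by linear_combination (-1 : K) * two0 K)

theorem cj_comp {A : SpecialLinearGroup (Fin 2) K} (hA : A ≠ 1) :
    ∃ P, cj A P = comp (A 0 0 + A 1 1) := by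
  have h2 := two0 K
  have hdet := sldet A
  suffices h : ∃ P : SpecialLinearGroup (Fin 2) K, A * P = P * comp (A 0 0 + A 1 1) by
    obtain ⟨P, hP⟩ := h
    refine ⟨P, ?_⟩
    rw [cj, mul_assoc, hP]; group
  obtain ⟨a, ha⟩ : ∃ a, a = A 0 0 := ⟨_, rfl⟩
  obtain ⟨b, hb⟩ : ∃ b, b = A 0 1 := ⟨_, rfl⟩
  obtain ⟨c, hc⟩ : ∃ c, c = A 1 0 := ⟨_, rfl⟩
  obtain ⟨d, hd⟩ : ∃ d, d = A 1 1 := ⟨_, rfl⟩
  rw [← ha, ← hb, ← hc, ← hd] at hdet
  rw [← ha, ← hd]
  by_cases hc0 : c = 0
  · by_cases hb0 : b = 0
    · have had : a ≠ d := by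
        intro had
        apply hA
        have h3 : (a - 1) ^ 2 = 0 := by
          rw [← had, hb0, hc0] at hdet
          linear_combination hdet + (1 - a) * h2
        have h4 : a = 1 := by
          have := pow_eq_zero_iff (two_ne_zero) |>.mp h3
          linear_combination this
        refine sl_ext ?_ ?_ ?_ ?_
        · rw [← ha, h4, one00]
        · rw [← hb, hb0, one01]
        · rw [← hc, hc0, one10]
        · rw [← hd, ← had, h4, one11]
      have hda : d - a ≠ 0 := sub_ne_zero.mpr (Ne.symm had)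
      obtain ⟨l, hl⟩ := IsAlgClosed.exists_pow_nat_eq ((d - a)⁻¹) (n := 2) (by norm_num)
      have hl' : l ^ 2 * (d - a) = 1 := by rw [hl]; field_simp
      refine ⟨sl l (l * a) l (l * d) (by linear_combination hl'), ?_⟩
      rw [hb0, hc0] at hdet
      refine sl_ext ?_ ?_ ?_ ?_
      · simp only [mul00, ← ha, ← hb, comp, sl00, sl01, sl10, sl11, hb0]; ring
      · simp only [mul01, ← ha, ← hb, comp, sl00, sl01, sl10, sl11, hb0]
        linear_combination (-l) * hdet - l * h2
      · simp only [mul10, ← hc, ← hd, comp, sl00, sl01, sl10, sl11, hc0]; ring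
      · simp only [mul11, ← hc, ← hd, comp, sl00, sl01, sl10, sl11, hc0]
        linear_combination (-l) * hdet - l * h2
    · obtain ⟨l, hl⟩ := IsAlgClosed.exists_pow_nat_eq (b⁻¹) (n := 2) (by norm_num)
      have hl' : l ^ 2 * b = 1 := by rw [hl]; field_simp
      refine ⟨sl 0 (l * b) l (l * d) (by linear_combination (-1 : K) * hl' - h2), ?_⟩
      refine sl_ext ?_ ?_ ?_ ?_
      · simp only [mul00, ← ha, ← hb, comp, sl00, sl01, sl10, sl11]; ring
      · simp only [mul01, ← ha, ← hb, comp, sl00, sl01, sl10, sl11]; ring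
      · simp only [mul10, ← hc, ← hd, comp, sl00, sl01, sl10, sl11]; ring
      · simp only [mul11, ← hc, ← hd, comp, sl00, sl01, sl10, sl11]
        linear_combination (-l) * hdet - l * h2
  · obtain ⟨l, hl⟩ := IsAlgClosed.exists_pow_nat_eq (c⁻¹) (n := 2) (by norm_num)
    have hl' : l ^ 2 * c = 1 := by rw [hl]; field_simp
    refine ⟨sl l (l * a) 0 (l * c) (by linear_combination hl'), ?_⟩
    refine sl_ext ?_ ?_ ?_ ?_
    · simp only [mul00, ← ha, ← hb, comp, sl00, sl01, sl10, sl11]; ring
    · simp only [mul01, ← ha, ← hb, comp, sl00, sl01, sl10, sl11]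
      linear_combination (-l) * hdet - l * h2
    · simp only [mul10, ← hc, ← hd, comp, sl00, sl01, sl10, sl11]; ring
    · simp only [mul11, ← hc, ← hd, comp, sl00, sl01, sl10, sl11]; ring

theorem cj_of_trace {A B : SpecialLinearGroup (Fin 2) K} (hA : A ≠ 1) (hB : B ≠ 1)
    (h : A 0 0 + A 1 1 = B 0 0 + B 1 1) : ∃ P, cj A P = B := by
  obtain ⟨P, hP⟩ := cj_comp hA
  obtain ⟨Q, hQ⟩ := cj_comp hB
  refine ⟨P * Q⁻¹, ?_⟩
  rw [cj_mul_right, hP, h, ← hQ, ← cj_mul_right]
  simp [cj_one]

theorem ne_one_of {A : SpecialLinearGroup (Fin 2) K} (h : A 0 0 ≠ 1 ∨ A 0 1 ≠ 0 ∨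
    A 1 0 ≠ 0 ∨ A 1 1 ≠ 1) : A ≠ 1 := by
  rintro rfl
  simp at h

theorem two_cj {g : SpecialLinearGroup (Fin 2) K} (hg : g ≠ 1)
    (h : SpecialLinearGroup (Fin 2) K) : ∃ x y, h = cj g x * cj g y := by
  have h2 := two0 K
  obtain ⟨s, hs⟩ : ∃ s, s = g 0 0 + g 1 1 := ⟨_, rfl⟩
  obtain ⟨t, ht⟩ : ∃ t, t = h 0 0 + h 1 1 := ⟨_, rfl⟩
  by_cases hh : h = 1
  · -- `h = g g⁻¹`
    have hinv : g⁻¹ ≠ 1 := inv_ne_one.mpr hg
    have htr : g 0 0 + g 1 1 = g⁻¹ 0 0 + g⁻¹ 1 1 := by
      have hdet := sldet g
      have hi : g⁻¹ = sl (g 1 1) (-(g 0 1)) (-(g 1 0)) (g 0 0)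
          (by linear_combination hdet) := by
        apply inv_eq_of_mul_eq_one_right
        refine sl_ext ?_ ?_ ?_ ?_
        · simp only [mul00, sl00, sl10, one00]; linear_combination hdet
        · simp only [mul01, sl01, sl11, one01]; ring
        · simp only [mul10, sl00, sl10, one10]; ring
        · simp only [mul11, sl01, sl11, one11]; linear_combination hdet
      rw [hi, sl00, sl11]; ring
    obtain ⟨P, hP⟩ := cj_of_trace hg hinv htr
    exact ⟨1, P, by rw [hP, cj_one, hh]; group⟩
  · suffices key : ∃ A B : SpecialLinearGroup (Fin 2) K, A ≠ 1 ∧ B ≠ 1 ∧ A * B ≠ 1 ∧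
        A 0 0 + A 1 1 = s ∧ B 0 0 + B 1 1 = s ∧ (A * B) 0 0 + (A * B) 1 1 = t by
      obtain ⟨A, B, hA, hB, hAB, tA, tB, tAB⟩ := key
      obtain ⟨P, hP⟩ := cj_of_trace hg hA (by rw [tA, hs])
      obtain ⟨Q, hQ⟩ := cj_of_trace hg hB (by rw [tB, hs])
      obtain ⟨R, hR⟩ := cj_of_trace hAB hh (by rw [tAB, ht])
      refine ⟨P * R, Q * R, ?_⟩
      rw [cj_mul_right, cj_mul_right, hP, hQ, ← cj_mul_left, hR]
    by_cases ht0 : t = 0
    · by_cases hs0 : s = 0
      · obtain ⟨w, hw⟩ := exists_quad (1 : K)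
        have hw0 : w ≠ 0 := by
          rintro rfl
          have : (1 : K) = 0 := by linear_combination hw
          exact one_ne_zero this
        have hw1 : w + 1 ≠ 0 := by
          intro h1
          have : (1 : K) = 0 := by linear_combination hw - w * h1
          exact one_ne_zero this
        refine ⟨sl 1 1 0 1 (by ring), sl 1 w 0 1 (by ring), ne_one_of ?_, ne_one_of ?_,
          ne_one_of ?_, ?_, ?_, ?_⟩
        · right; left; rw [sl01]; exact one_ne_zero
        · right; left; rw [sl01]; exact hw0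
        · right; left
          simp only [mul01, sl00, sl01, sl11]
          intro h3; apply hw1; linear_combination h3
        · rw [sl00, sl11, hs0]; linear_combination h2
        · rw [sl00, sl11, hs0]; linear_combination h2
        · simp only [mul00, mul11, sl00, sl01, sl10, sl11, ht0]
          linear_combination h2
      · obtain ⟨β, hβ⟩ := exists_quad s
        have hβ0 : β ≠ 0 := by
          rintro rfl
          have : (1 : K) = 0 := by linear_combination hβ
          exact one_ne_zero this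
        have hβ1 : β ≠ 1 := by
          rintro rfl
          apply hs0; linear_combination hβ - h2
        have hinv : β * β⁻¹ = 1 := mul_inv_cancel₀ hβ0
        have htr : β + β⁻¹ = s := by
          have h3 : β * (β + β⁻¹) = β * s := by
            linear_combination hβ + hinv - (s * β) * h2
          exact mul_left_cancel₀ hβ0 h3
        refine ⟨sl β 0 0 β⁻¹ (by linear_combination hinv),
          sl β⁻¹ β⁻¹ 0 β (by linear_combination hinv), ne_one_of ?_, ne_one_of ?_,
          ne_one_of ?_, ?_, ?_, ?_⟩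
        · left; rw [sl00]; exact hβ1
        · right; right; right; rw [sl11]; exact hβ1
        · right; left
          simp only [mul01, sl00, sl01, sl11, hinv]
          simp
        · rw [sl00, sl11]; exact htr
        · rw [sl00, sl11]; linear_combination htr
        · simp only [mul00, mul11, sl00, sl01, sl10, sl11, ht0]
          linear_combination 2 * hinv + h2
    · obtain ⟨β, hβ⟩ := exists_quad t
      have hβ0 : β ≠ 0 := by
        rintro rfl
        have : (1 : K) = 0 := by linear_combination hβ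
        exact one_ne_zero this
      have hβ1 : β ≠ 1 := by
        rintro rfl
        apply ht0; linear_combination hβ - h2
      have hinv : β * β⁻¹ = 1 := mul_inv_cancel₀ hβ0
      have htr : β + β⁻¹ = t := by
        have h3 : β * (β + β⁻¹) = β * t := by
          linear_combination hβ + hinv - (t * β) * h2
        exact mul_left_cancel₀ hβ0 h3
      refine ⟨comp s, sl s β β⁻¹ 0 (by linear_combination (-1 : K) * hinv - h2), ne_one_of ?_,
        ne_one_of ?_, ne_one_of ?_, ?_, ?_, ?_⟩
      · left; rw [comp, sl00]; exact zero_ne_one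
      · right; right; right; rw [sl11]; exact zero_ne_one
      · right; right; right
        simp only [mul11, comp, sl10, sl01, sl11]
        intro h3; apply hβ1; linear_combination h3
      · rw [comp, sl00, sl11]; ring
      · rw [sl00, sl11]; ring
      · simp only [mul00, mul11, comp, sl00, sl01, sl10, sl11]
        linear_combination htr

theorem GI_SL2 : GI (⊤ : Subgroup (SpecialLinearGroup (Fin 2) K)) := by
  have h2 := two0 K
  intro g _
  by_cases hg : g = 1
  · subst hg
    have hle : NC ⊤ (1 : SpecialLinearGroup (Fin 2) K) ≤ ⊥ :=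
      NC_le (Subgroup.mem_bot.mpr rfl) (fun x _ z hz => by
        rw [Subgroup.mem_bot] at hz ⊢
        rw [hz]; simp [cj])
    refine ⟨?_, ?_, ?_⟩
    · intro z hz
      have hz1 : z = 1 := Subgroup.mem_bot.mp (hle hz)
      exact ⟨1, Subgroup.mem_top _, 1, Subgroup.mem_top _, by rw [hz1]; simp [cj]⟩
    · intro y _
      refine ⟨1, one_mem _, fun z hz => ?_⟩
      have hz1 : z = 1 := Subgroup.mem_bot.mp (hle hz)
      rw [hz1]; exact Commute.one_right _
    · exact ⟨1, one_mem _, 1, one_mem _, fun z hz _ _ => Subgroup.mem_bot.mp (hle hz)⟩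
  · have htop : ∀ z, z ∈ NC ⊤ g := by
      intro z
      obtain ⟨x, y, rfl⟩ := two_cj hg z
      exact mul_mem (cj_mem_NC (Subgroup.mem_top _)) (cj_mem_NC (Subgroup.mem_top _))
    refine ⟨?_, ?_, ?_⟩
    · intro z _
      obtain ⟨x, y, e⟩ := two_cj hg z
      exact ⟨x, Subgroup.mem_top _, y, Subgroup.mem_top _, e⟩
    · intro y _
      exact Fc.of_mem (htop y)
    · refine ⟨sl 1 1 0 1 (by ring), htop _, sl 1 0 1 1 (by ring), htop _, ?_⟩
      intro z _ h1 h3
      have hdet := sldet z
      have e1 := congrArg (fun A : SpecialLinearGroup (Fin 2) K => A 0 0) h1.eq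
      have e2 := congrArg (fun A : SpecialLinearGroup (Fin 2) K => A 0 1) h1.eq
      have e3 := congrArg (fun A : SpecialLinearGroup (Fin 2) K => A 0 0) h3.eq
      simp only [mul00, sl00, sl10, sl01] at e1
      simp only [mul01, sl01, sl11, sl00] at e2
      simp only [mul00, sl00, sl10, sl01] at e3
      have z10 : z 1 0 = 0 := by linear_combination -e1
      have z01 : z 0 1 = 0 := by linear_combination e3
      have z11 : z 0 0 = z 1 1 := by linear_combination e2
      have h5 : (z 1 1 - 1) ^ 2 = 0 := by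
        rw [z10, z01, z11] at hdet
        linear_combination hdet + (1 - z 1 1) * h2
      have h6 : z 1 1 = 1 := by
        have := pow_eq_zero_iff (two_ne_zero) |>.mp h5
        linear_combination this
      refine sl_ext ?_ ?_ ?_ ?_
      · rw [z11, h6, one00]
      · rw [z01, one01]
      · rw [z10, one10]
      · rw [h6, one11]

end char2

end Pool.Agent.H776R2.FORad
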